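import Pool.Agent.R824.TwoTypesSim

/-!
# Two types of processors suffice for modular real-time trellis automata

Every modular real-time trellis automaton (MRTSTA) `A` has an equivalent MRTSTA `B` with at most two
distinct transition functions. (The new automaton even has the same `p` and `q`.)

Idea: the new automaton works with a delay `4 w`. Its labelling is essentially binary: in each
aligned square of side `w` a corner marker and a code word for the pattern of the labels of `A`
around this square are written; the number of such patterns is polynomial in `w`, so that they can
be coded with `w` bits when `w` is large. The bits in a triangle of side `4 w` determine all labels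
of `A` in this triangle.

The definitions `RTTA` (real-time trellis automaton), `RTTA.out`, `RTTA.language`, `RTTA.numTypes`,
`arr` (the arrays `M^k_δ`) and `Modular` are in `Pool/Agent/R824/TwoTypesBase.lean`.
-/

set_option autoImplicit false

namespace Pool.Agent.Results.MP_bd4c56_lc.TwoTypes

open Pool.Agent.R824.TwoTypes

/-- For every modular real-time trellis automaton `A` there is a modular real-time trellis automaton
`B` with `L(B) = L(A)` that uses at most two types of processors. -/
theorem result {S : Type} (A : RTTA S) (hA : Modular A.T) :
    ∃ B : RTTA S, Modular B.T ∧ B.language = A.language ∧ B.numTypes ≤ 2 :=
  two_types A hA

end Pool.Agent.Results.MP_bd4c56_lc.TwoTypes
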